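import Pool.Agent.helper21.KBR3.Chart

/-!
# Module A7: a closed fundamental form and holomorphic coordinates make `J` parallel
-/

noncomputable section

namespace KBR

open Set MeasureTheory Filter Topology
open scoped ContDiff RealInnerProductSpace

variable {n m : ℕ}

namespace KPar

/-- two maps which agree on `M` have the same derivative at points of `M` -/
lemma fderiv_eq_of_eqOn {W : Type*} [NormedAddCommGroup W] [NormedSpace ℝ W] {f g : E n → W}
    {x : E n} (hx : x ∈ M n) {f' g' : E n →L[ℝ] W} (hf : HasFDerivAt f f' x)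
    (hg : HasFDerivAt g g' x) (h : ∀ y ∈ M n, f y = g y) : f' = g' := by
  have h1 : HasFDerivWithinAt g f' (M n) x :=
    hf.hasFDerivWithinAt.congr (fun y hy => (h y hy).symm) (h x hx).symm
  exact (uniqueDiffOn_M x hx).eq h1 hg.hasFDerivWithinAt

/-- the pointwise algebra -/
lemma alg {V : Type*} [AddCommGroup V] (J : V → V) (C : V → V → V → ℝ)
    (hJ : ∀ v, J (J v) = -v) (hsymm : ∀ u v w, C u v w = C u w v)
    (hneg : ∀ u v w, C u (-v) w = -C u v w) (hinv : ∀ u v w, C u (J v) (J w) = C u v w)
    (hcyc : ∀ u v w, C u (J v) w + C v (J w) u + C w (J u) v = 0) (u v w : V) :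
    C u (J v) w + C (J v) u w - C w u (J v) + (C u v (J w) + C v u (J w) - C (J w) u v) = 0 := by
  have a1 := hcyc (J u) (J v) w
  have a2 := hcyc (J u) v (J w)
  rw [hJ, hJ, hneg, hneg] at a1
  rw [hJ, hJ, hneg, hneg] at a2
  have a3 := hinv (J u) v w
  have a4 := hinv (J v) w u
  have a5 := hinv u v (J w)
  rw [hJ] at a5
  have a6 : C u (J v) (-w) = - C u (J v) w := by rw [hsymm, hneg, hsymm]
  have a7 := hinv v u (J w)
  rw [hJ] at a7
  have a8 : C v (J u) (-w) = - C v (J u) w := by rw [hsymm, hneg, hsymm]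
  have s1 := hsymm w u (J v)
  have s2 := hsymm v u (J w)
  have s3 := hsymm (J v) u w
  have s4 := hsymm (J w) u v
  have s5 := hsymm v w (J u)
  linarith

end KPar

open KPar in
/-- MODULE A7 (`kahler_par`): in holomorphic coordinates, closed fundamental form implies
parallel complex structure. -/
theorem kahler_par (hnm : n = 2 * m) {G J : E n → E n →L[ℝ] E n} (hK : IsAlmostKahler G J)
    {Φ : E n → Cn m} (hΦ : HolChart J Φ) : Par G J := by
  intro x hx u₀ v₀
  have hG := hK.metric
  have dG : HasFDerivAt G (fderiv ℝ G x) x := (hG.smooth.differentiable (by simp) x).hasFDerivAt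
  have dJ : HasFDerivAt J (fderiv ℝ J x) x := (hK.smoothJ.differentiable (by simp) x).hasFDerivAt
  have hd : ContDiff ℝ ∞ (fderiv ℝ Φ) := hΦ.smooth.fderiv_right (by simp)
  have dP : HasFDerivAt (fderiv ℝ Φ) (fderiv ℝ (fderiv ℝ Φ) x) x :=
    (hd.differentiable (by simp) x).hasFDerivAt
  set P : E n →L[ℝ] Cn m := fderiv ℝ Φ x with hP
  set D2 := fderiv ℝ (fderiv ℝ Φ) x with hD2
  have hsymm2 : ∀ a b, D2 a b = D2 b a := by
    intro a b
    have := (hΦ.smooth.contDiffAt (x := x)).isSymmSndFDerivAt (by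
      rw [minSmoothness_of_isRCLikeNormedField]; exact ENat.LEInfty.out)
    exact this a b
  -- `P` is bijective
  have hPinj : Function.Injective P := by
    intro a b hab
    have := hΦ.imm x hx (a - b) (by rw [map_sub]; exact sub_eq_zero.2 hab)
    exact sub_eq_zero.1 this
  have hPsurj : Function.Surjective P := by
    have hfr : Module.finrank ℝ (E n) = Module.finrank ℝ (Cn m) := by
      rw [finrank_euclideanSpace_fin, Module.finrank_pi_fintype]
      simp [Complex.finrank_real_complex, hnm, mul_comm]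
    exact (LinearMap.injective_iff_surjective_of_finrank_eq_finrank hfr
      (f := (P : E n →ₗ[ℝ] Cn m))).1 hPinj
  choose Q hQ using hPsurj
  -- the flat connection of the coordinates
  let g0 : E n → E n → E n := fun u v => Q (D2 u v)
  have hg0 : ∀ u v, P (g0 u v) = D2 u v := fun u v => hQ _
  have g0symm : ∀ u v, g0 u v = g0 v u := fun u v => hPinj (by rw [hg0, hg0, hsymm2])
  have g0neg : ∀ u v, g0 u (-v) = -g0 u v := fun u v => hPinj (by
    rw [map_neg, hg0, hg0, map_neg])
  -- derivative of the holomorphy of `Φ`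
  have e1 : ∀ u v, fderiv ℝ J x u v = J x (g0 u v) - g0 u (J x v) := by
    intro u v
    have h1 : HasFDerivAt (fun y => fderiv ℝ Φ y (J y v))
        ((fderiv ℝ Φ x).comp ((ContinuousLinearMap.apply ℝ (E n) v).comp (fderiv ℝ J x)) +
          D2.flip (J x v)) x := by
      have h3 : HasFDerivAt (fun y => J y v)
          ((ContinuousLinearMap.apply ℝ (E n) v).comp (fderiv ℝ J x)) x :=
        (ContinuousLinearMap.apply ℝ (E n) v).hasFDerivAt.comp x dJ
      exact dP.clm_apply h3
    have h2 : HasFDerivAt (fun y => Complex.I • fderiv ℝ Φ y v)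
        (Complex.I • ((ContinuousLinearMap.apply ℝ (Cn m) v).comp D2)) x := by
      have h3 : HasFDerivAt (fun y => fderiv ℝ Φ y v)
          ((ContinuousLinearMap.apply ℝ (Cn m) v).comp D2) x :=
        (ContinuousLinearMap.apply ℝ (Cn m) v).hasFDerivAt.comp x dP
      exact h3.const_smul Complex.I
    have h3 := fderiv_eq_of_eqOn hx h1 h2 fun y hy => hΦ.hol y hy v
    have h4 := congrArg (fun A : E n →L[ℝ] Cn m => A u) h3
    simp only [_root_.add_apply, ContinuousLinearMap.comp_apply,
      ContinuousLinearMap.apply_apply, ContinuousLinearMap.flip_apply,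
      _root_.smul_apply] at h4
    apply hPinj
    rw [map_sub, hg0, hP, hΦ.hol x hx, ← hP, hg0, ← h4]
    abel
  -- symmetry of the derivative of the metric
  have e2 : ∀ u v w, ⟪fderiv ℝ G x u v, w⟫ = ⟪fderiv ℝ G x u w, v⟫ := by
    intro u v w
    have h1 : ∀ v w, HasFDerivAt (fun y => ⟪G y v, w⟫)
        ((innerSL ℝ w).comp ((ContinuousLinearMap.apply ℝ (E n) v).comp (fderiv ℝ G x))) x := by
      intro v w
      have a2 := ((innerSL ℝ w).comp (ContinuousLinearMap.apply ℝ (E n) v)).hasFDerivAt.comp x dG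
      refine a2.congr_of_eventuallyEq (Filter.Eventually.of_forall fun y => ?_)
      simp [real_inner_comm]
    have h2 := fderiv_eq_of_eqOn hx (h1 v w) (h1 w v) fun y hy => hG.symm y hy v w
    have h4 := congrArg (fun A : E n →L[ℝ] ℝ => A u) h2
    simp only [ContinuousLinearMap.comp_apply, innerSL_apply_apply,
      ContinuousLinearMap.apply_apply] at h4
    rw [real_inner_comm, h4, real_inner_comm]
  -- derivative of the invariance
  have e3 : ∀ u v w, ⟪fderiv ℝ G x u (J x v), J x w⟫ + ⟪G x (fderiv ℝ J x u v), J x w⟫ +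
      ⟪G x (J x v), fderiv ℝ J x u w⟫ = ⟪fderiv ℝ G x u v, w⟫ := by
    intro u v w
    have h3 : ∀ v, HasFDerivAt (fun y => J y v)
        ((ContinuousLinearMap.apply ℝ (E n) v).comp (fderiv ℝ J x)) x := fun v =>
      (ContinuousLinearMap.apply ℝ (E n) v).hasFDerivAt.comp x dJ
    have h1 := (dG.clm_apply (h3 v)).inner ℝ (h3 w)
    have h2 := (dG.clm_apply (hasFDerivAt_const v x)).inner ℝ (hasFDerivAt_const w x)
    have h4 := fderiv_eq_of_eqOn hx h1 h2 fun y hy => hK.inv y hy v w
    have h5 := congrArg (fun A : E n →L[ℝ] ℝ => A u) h4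
    simp at h5
    rw [inner_add_left] at h5
    linarith
  -- closedness
  have e4 : ∀ u v w, ⟪fderiv ℝ (fun y => (G y).comp (J y)) x u v, w⟫ =
      ⟪fderiv ℝ G x u (J x v), w⟫ + ⟪G x (fderiv ℝ J x u v), w⟫ := by
    intro u v w
    have h1 := (dG.clm_comp dJ).fderiv
    rw [h1]
    simp [inner_add_left]
    ring
  have hJs : ∀ a b, ⟪G x (J x a), b⟫ = -⟪G x a, J x b⟫ := by
    intro a b
    have := hK.inv x hx a (J x b)
    rw [hK.sq x hx, inner_neg_right] at this
    linarith
  have hcl := hK.closed x hx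
  let C : E n → E n → E n → ℝ := fun u v w =>
    ⟪fderiv ℝ G x u v, w⟫ - ⟪G x (g0 u v), w⟫ - ⟪G x (g0 u w), v⟫
  have key := alg (J x) C (fun v => hK.sq x hx v) ?_ ?_ ?_ ?_ u₀ v₀
  · -- conclusion
    have hzero : ∀ z, (∀ w, ⟪G x z, w⟫ = 0) → z = 0 := by
      intro z hz
      by_contra hne
      exact (hG.pos x hx z hne).ne' (hz z)
    rw [← sub_eq_zero]
    apply hzero
    intro w
    have k := key w
    simp only [C] at k
    rw [map_sub, map_add, inner_sub_left, inner_add_left, e1, map_sub, inner_sub_left,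
      hJs, hJs, chr_inner hG hx, chr_inner hG hx]
    rw [g0symm (J x v₀) u₀, g0symm w u₀, g0symm v₀ u₀, g0symm (J x w) u₀,
      g0symm w (J x v₀), g0symm (J x w) v₀] at k
    linarith
  · intro u v w
    simp only [C]
    rw [e2 u v w]
    ring
  · intro u v w
    simp only [C]
    rw [map_neg, g0neg, map_neg]
    simp only [inner_neg_left, inner_neg_right]
    ring
  · intro u v w
    have h := e3 u v w
    simp only [C]
    rw [e1, e1, map_sub, inner_sub_left, inner_sub_right, hK.inv x hx, hK.inv x hx] at h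
    rw [hG.symm x hx (g0 u (J x w)), hG.symm x hx (g0 u w)]
    linarith
  · intro u v w
    have h := hcl u v w
    rw [e4, e4, e4, e1, e1, e1] at h
    simp only [map_sub, inner_sub_left] at h
    rw [hJs (g0 u v), hJs (g0 v w), hJs (g0 w u)] at h
    simp only [C]
    rw [g0symm v u, g0symm w v, g0symm u w]
    linarith

end KBR
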